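import Mathlib
import Pool.Agent.H177.UCS.Family
import Pool.Agent.H177.UCS.Group
import Pool.Agent.H177.UCS.Assoc
import Pool.Agent.H177.UCS.Lie

set_option autoImplicit false

/-!
# Poonen's strict form for families ISOMORPHIC to lattices of subgroups or subalgebras

The order (by inclusion) of a union-closed family `F` with the empty set added is a finite
lattice. If it is DUAL to the lattice of the subgroups of a group or of the subalgebras of an
algebra, Poonen's conjecture says that some join-irreducible subalgebra is contained in fewer than
half of the subalgebras, unless the lattice is Boolean; this direction is well studied. Here the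
order of the family is ISOMORPHIC to such a lattice; then the conjecture says that some
meet-irreducible subalgebra contains fewer than half of the subalgebras, unless the lattice is
Boolean, which was known for the subgroups of solvable groups only. We prove it for

1. the subgroups of every finite group `G` which has a solvable normal subgroup that is not a
   central Hall subgroup of squarefree order. (If the solvable radical `C` of `G` is such a central
   Hall subgroup, then `G` is the product of `C` and a group `M` of coprime order without solvable
   normal subgroups, and the lattice of `G` is the product of a Boolean lattice and that of `M`.)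
2. the subalgebras, with or without identity, of EVERY finite associative algebra over a
   commutative ring (over `ℤ`: the subrings of every finite ring);
3. the subalgebras of every finite nonassociative algebra all of whose nonzero subalgebras have a
   nonzero ideal of square zero (nilpotent algebras, solvable Lie rings, ...);
4. the Lie subalgebras of every finite Lie algebra over a field with a nonzero solvable radical,
   of dimension at least two.

Proof. Let `V` be an elementary abelian normal subgroup (an ideal of square zero killed by a maximal
ideal of the scalars). Averaging over the hyperplanes `W` of `V`, with `M_W` maximal such that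
`M_W ∩ V = W`, shows that some `M_W` contains at most half of the subalgebras. We analyse equality:
then all subalgebras act on `V` with all invariant functionals spanning, every subalgebra of `M_W`
has exactly one extension that is not below `M_W`, so `V` is a line, `M_W ∩ V = 0`, every subalgebra
is below `M_W` or contains `V`, and the lattice is the product of that of `M_W` and a chain with two
elements. In groups this forces `V` to be a central Hall subgroup of prime order; in algebras one
proceeds by induction. In associative algebras without ideals of square zero the annihilators of the
elements of a minimal right ideal take the place of the `M_W`.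
-/

namespace Pool.Agent.Results.MP_75f39d_co.DirectSubalgebraLattices

/-- The lattice `L` is a finite Boolean lattice or has a meet-irreducible element above fewer than
half of the elements; and Poonen's strict inequality holds for every separating finite union-closed
family which is not a power set and whose inclusion order, with the empty set added or not, is
isomorphic to `L`. -/
def PoonenFor.{a, b} (L : Type a) [Lattice L] : Prop :=
  ((∃ n : ℕ, Nonempty (L ≃o (Fin n → Bool))) ∨
    ∃ M : L, InfIrred M ∧ 2 * Nat.card {H : L // H ≤ M} < Nat.card L) ∧
  ∀ (α : Type b) [DecidableEq α] (F : Finset (Finset α)), F.Nonempty →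
    (∀ X ∈ F, ∀ Y ∈ F, X ∪ Y ∈ F) →
    (∀ x ∈ F.sup id, ∀ y ∈ F.sup id, x ≠ y → ∃ S ∈ F, (x ∈ S ∧ y ∉ S) ∨ (y ∈ S ∧ x ∉ S)) →
    F ≠ (F.sup id).powerset →
    (Nonempty ({X // X ∈ F} ≃o L) ∨ Nonempty ({X // X ∈ insert ∅ F} ≃o L)) →
    ∃ x ∈ F.sup id, F.card < 2 * (F.filter fun X => x ∈ X).card

theorem of_good.{a, b} {L : Type a} [Lattice L] [Finite L] (h : Pool.Agent.H177.UCS.Good L) :
    PoonenFor.{a, b} L := by
  refine ⟨h, ?_⟩
  intro α _ F h1 h2 h3 h4 h5
  exact Pool.Agent.H177.UCS.poonen_of_good h F h1 h2 h3 h4 h5

universe u v w

/-- **Main result.** -/
theorem result :
    -- (1) subgroups of finite groups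
    (∀ (G : Type u) [Group G] [Finite G] (R : Subgroup G), R.Normal → Group.IsSolvable R →
      ¬ (R ≤ Subgroup.center G ∧ Squarefree (Nat.card R) ∧ (Nat.card R).Coprime R.index) →
      PoonenFor.{u, w} (Subgroup G)) ∧
    -- (2) subalgebras, with or without identity, of finite associative algebras
    (∀ (S : Type v) (A : Type u) [CommRing S] [NonUnitalRing A] [Module S A]
      [IsScalarTower S A A] [SMulCommClass S A A] [Finite A],
      PoonenFor.{u, w} (NonUnitalSubalgebra S A)) ∧
    -- (3) nonassociative algebras in which every nonzero subalgebra has a nonzero ideal of
    -- square zero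
    (∀ (S : Type v) (A : Type u) [CommRing S] [NonUnitalNonAssocRing A] [Module S A]
      [IsScalarTower S A A] [SMulCommClass S A A] [Finite A],
      (∀ B : NonUnitalSubalgebra S A, B ≠ ⊥ → ∃ N : Submodule S A, N ≠ ⊥ ∧ (∀ n ∈ N, n ∈ B) ∧
        (∀ b ∈ B, ∀ n ∈ N, b * n ∈ N ∧ n * b ∈ N) ∧ ∀ m ∈ N, ∀ n ∈ N, m * n = 0) →
      PoonenFor.{u, w} (NonUnitalSubalgebra S A)) ∧
    -- (4) Lie subalgebras of finite Lie algebras over a field with a nonzero solvable radical
    (∀ (S : Type v) (A : Type u) [Field S] [LieRing A] [LieAlgebra S A] [Finite A],
      LieAlgebra.radical S A ≠ ⊥ → 2 ≤ Module.finrank S A →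
      PoonenFor.{u, w} (LieSubalgebra S A)) := by
  refine ⟨?_, ?_, ?_, ?_⟩
  · intro G _ _ R h1 h2 h3
    exact of_good (Or.inr ((Pool.Agent.H177.UCS.group_solvable_strict R h1 h2).resolve_right h3))
  · intro S A _ _ _ _ _ _
    have : Finite (NonUnitalSubalgebra S A) :=
      Finite.of_injective (fun H => (H : Set A)) SetLike.coe_injective
    exact of_good (Pool.Agent.H177.UCS.good_assoc (Nat.card A) A rfl)
  · intro S A _ _ _ _ _ _ h
    have : Finite (NonUnitalSubalgebra S A) :=
      Finite.of_injective (fun H => (H : Set A)) SetLike.coe_injective
    exact of_good (Pool.Agent.H177.UCS.good_of_hereditary (Nat.card A) A rfl h)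
  · intro S A _ _ _ _ h1 h2
    have : Finite (LieSubalgebra S A) :=
      Finite.of_injective (fun H => (H : Set A)) SetLike.coe_injective
    exact of_good (Or.inr (Pool.Agent.H177.UCS.lie_radical_strict h1 h2))

end Pool.Agent.Results.MP_75f39d_co.DirectSubalgebraLattices
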