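import Pool.Agent.H61.KS6
import Pool.Agent.H61.PS7
import Pool.Agent.H61.Final1

set_option autoImplicit false

/-!
# Poonen's strict inequality and `k`-element members: the sharp threshold for every `k`

Let `k ≥ 3`, let `F` be a finite union-closed family and `N` a finite set. If `F` has more than
`C(|N|, k-2) / 2 + O(|N| ^ (k-3))` members among the `k`-subsets of `N`, then some element of `N` lies in
strictly more than half of the members of `F`, or `F` is, for some element `b` of `N`, the product of a
family and of the power set of `{b}` (`FreeElement`). The constant `1/2` is best possible for every `k`.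
For `k = 3` there is no error term: more than `|N| / 2` triples suffice, and `⌊|N| / 2⌋` triples do not,
for all `|N| ≥ 4`. It follows that Poonen's conjecture is equivalent to its restriction to the families
which, for all `k ≥ 3` simultaneously, have only `C(|N|, k-2) / 2 + O(|N| ^ (k-3))` members with `k`
elements inside every finite set `N` (and at most `|N| / 2` triples).

Proof for `k = 3`. Suppose that no element of `N` is in more than half of the members and that none is
free. As in the non-strict case, elements in no triple, pairs of elements in only one triple and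
quadruples carrying two triples are removed from `N`; if a set `W ≠ ∅` remains, the weights `wt` satisfy
all local isoperimetric inequalities. Two new arguments lead to a contradiction. If one of the local
inequalities, at `b`, say, is strict, then the averaging argument in all fibres of the trace on the
complement of `W` shows that every fibre is closed under adding `b`, and then `b` is free
(`strict_or_free`). If no local inequality can be made strict, then `F` contains three triples
`xab, xad, xaf` or four triples `xab, xag, ydb, ydf` (`stuck_cases`); for these two configurations one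
shows that the sum of the weights of the members inside the configuration is positive, unless a
singleton is a member (`pos5`, `pos7`; the second one by three certificates of linear programming
duality), and that suffices (`strict_of_zero`).

Proof for `k ≥ 4`. A triple `T ⊆ W` is dense if more
than `K |W| ^ (k-4)` members of size `k` lie between `T` and `W`; `A ⊆ W` is rich if it has many pairwise
disjoint extensions to such members; a root is a rich element or an element of a rich pair. As in
`MP_9bc572_co.SharpKSetThreshold`, nonroots in no dense triple, pairs of nonroots whose only dense triple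
is the same one, and quadruples carrying two dense triples are removed from `N`; if a set `W ≠ ∅` without
removable parts remains, then all local inequalities hold for the weights `wt`, now with slack in all
directions outside the neighbourhood `C_x` of `x` in the hypergraph of the dense triples (`C_x` is the
partner for a root `x`): if no local inequality is strict, every member of size `k` inside `W` through `x`
meets `C_x` (`Slack.sineq`). Nonroots have bounded degree in the hypergraph of the dense triples
(`deg_HT`), so a dense triple without roots lies in a member `T ∪ E` and some `e ∈ E` has no neighbour in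
`T ∪ E` (`count_bad`), a contradiction. So dense triples consist of a pair of partners and one nonroot; if
there is a nonroot, other weights (3 and 3/2) make its local inequality strict, and the averaging argument
over the fibres of the trace on the complement of `W` shows that it is free (`free_of_sineq`). If all
elements are roots, then they come in pairs of partners lying in the same members, and there are only
`C(|W|, k-2) / 2` members of size `k` (`twin_count`).
-/

namespace Pool.Agent.Results.MP_75f39d_co.KSetThresholdStrict

open Finset Filter Topology Pool.Agent.H61.FC Pool.Agent.H61.PS Pool.Agent.H61.KS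

section

variable {α : Type*} [DecidableEq α]

/-- The finite family `F` of finite sets is union-closed. -/
def UnionClosed (F : Finset (Finset α)) : Prop := ∀ A ∈ F, ∀ B ∈ F, A ∪ B ∈ F

/-- The number of members of `F` containing `x`. -/
def freq (F : Finset (Finset α)) (x : α) : ℕ := (F.filter (fun A => x ∈ A)).card

/-- The number of members of `F` that are `k`-element subsets of `N`. -/
def kSets (F : Finset (Finset α)) (N : Finset α) (k : ℕ) : ℕ :=
  (F.filter (fun A => A ⊆ N ∧ A.card = k)).card

/-- `b` can be added to and removed from all members of `F`. -/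
def FreeElement (F : Finset (Finset α)) (b : α) : Prop := ∀ A ∈ F, insert b A ∈ F ∧ A.erase b ∈ F

/-- The assertion of Poonen's conjecture for the family `F`: if `F` is nonempty, union-closed, separates
the elements of its union and is not the power set of its union, then some element of the union lies in
strictly more than half of the members. -/
def Poonen (F : Finset (Finset α)) : Prop :=
  F.Nonempty → UnionClosed F →
    (∀ x ∈ F.sup id, ∀ y ∈ F.sup id, x ≠ y → ∃ S ∈ F, (x ∈ S ∧ y ∉ S) ∨ (y ∈ S ∧ x ∉ S)) →
    F ≠ (F.sup id).powerset → ∃ x ∈ F.sup id, F.card < 2 * freq F x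

/-- For all `k ≥ 3` and all finite `N`, at most `(C(|N|, k-2) + K k * |N| ^ (k-3)) / 2` members of `F` are
`k`-subsets of `N`. -/
def Sparse (K : ℕ → ℕ) (F : Finset (Finset α)) : Prop :=
  ∀ k : ℕ, 3 ≤ k → ∀ N : Finset α,
    2 * kSets F N k ≤ N.card.choose (k - 2) + K k * N.card ^ (k - 3)

end

/-- The least `m` such that every finite union-closed family with at least `m` members among the
`k`-element subsets of `{0, …, n-1}` has an element of `{0, …, n-1}` lying in strictly more than half of
its members or free. -/
noncomputable def strictNum (k n : ℕ) : ℕ :=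
  sInf {m : ℕ | ∀ F : Finset (Finset ℕ), UnionClosed F → m ≤ kSets F (range n) k →
    ∃ x ∈ range n, F.card < 2 * freq F x ∨ FreeElement F x}

/-- The constants. -/
def KC (k : ℕ) : ℕ := if k = 3 then 0 else 2 * KQ k + 1

section

variable {α : Type*} [DecidableEq α]

theorem upper (k : ℕ) (hk : 3 ≤ k) (F : Finset (Finset α)) (N : Finset α) (hF : UnionClosed F)
    (h : N.card.choose (k - 2) + KC k * N.card ^ (k - 3) < 2 * kSets F N k) :
    ∃ x ∈ N, F.card < 2 * freq F x ∨ FreeElement F x := by
  by_contra hcon
  push Not at hcon
  have e : (F.filter (fun A => A.card = k)).filter (fun A => A ⊆ N) =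
      F.filter (fun A => A ⊆ N ∧ A.card = k) := by
    rw [filter_filter]
    congr 1; ext A; exact and_comm
  rcases Nat.eq_or_lt_of_le hk with rfl | hk4
  · have h1 := upper3_strict (G := F.filter (fun A => A.card = 3))
      (fun B hB => (mem_filter.1 hB).2) hF (filter_subset _ _) N.card N rfl
      (fun x hx => (hcon x hx).1) (fun x hx => (hcon x hx).2)
    unfold ins at h1
    rw [e] at h1
    unfold kSets KC at h
    simp only [Nat.sub_self, pow_zero, Nat.choose_one_right, show 3 - 2 = 1 from rfl, if_true] at h
    omega
  · have h1 := upper4_strict (G := F.filter (fun A => A.card = k)) (k := k) hk4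
      (fun B hB => (mem_filter.1 hB).2) hF (filter_subset _ _) N.card N.card N rfl le_rfl
      (fun x hx => (hcon x hx).1) (fun x hx => (hcon x hx).2)
    unfold ins at h1
    rw [e, mul_assoc, ← pow_succ] at h1
    have e2 : k - 4 + 1 = k - 3 := by omega
    have e3 : KC k = 2 * KQ k + 1 := by unfold KC; rw [if_neg (by omega)]
    rw [e2] at h1
    rw [e3] at h
    unfold kSets at h
    omega

theorem lower [Infinite α] (k : ℕ) (hk : 3 ≤ k) (N : Finset α) :
    ∃ F : Finset (Finset α), UnionClosed F ∧
      N.card.choose (k - 2) ≤ 2 * kSets F N k + 3 * N.card ^ (k - 3) ∧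
      ∀ x ∈ N, 2 * freq F x < F.card ∧ ¬ FreeElement F x := by
  obtain ⟨G, g1, g2, g3⟩ := low4 hk N
  obtain ⟨F, f1, f2, f3⟩ := lower_of g1 g2
  refine ⟨F, f1, ?_, fun x hx => ⟨f3 x hx, fun hfree => ?_⟩⟩
  · have : G.card ≤ kSets F N k := f2
    omega
  · have hfree' : Free F x := hfree
    have h4 := hfree'.card
    have h5 := f3 x hx
    have h6 : (F.filter (fun A => x ∈ A)).card + (F.filter (fun A => ¬ x ∈ A)).card = F.card :=
      card_filter_add_card_filter_not (fun A => x ∈ A)
    omega

theorem lower3 [Infinite α] (N : Finset α) (hN : 4 ≤ N.card) :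
    ∃ F : Finset (Finset α), UnionClosed F ∧ N.card / 2 ≤ kSets F N 3 ∧
      ∀ x ∈ N, 2 * freq F x < F.card ∧ ¬ FreeElement F x := by
  obtain ⟨G, h1, h2, h3⟩ := low3 N hN
  obtain ⟨F, f1, f2, f3⟩ := lower_of h1 h2
  refine ⟨F, f1, h3.trans f2, fun x hx => ⟨f3 x hx, fun hfree => ?_⟩⟩
  have hfree' : Free F x := hfree
  have h4 := hfree'.card
  have h5 := f3 x hx
  have h6 : (F.filter (fun A => x ∈ A)).card + (F.filter (fun A => ¬ x ∈ A)).card = F.card :=
    card_filter_add_card_filter_not (fun A => x ∈ A)
  omega

theorem reduction (h : ∀ F : Finset (Finset α), Sparse KC F → Poonen F) (m : ℕ) :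
    ∀ F : Finset (Finset α), F.card = m → Poonen F := by
  induction m using Nat.strong_induction_on with
  | _ m ih =>
  intro F hm hne hF hsep hpow
  by_cases hs : Sparse KC F
  · exact h F hs hne hF hsep hpow
  unfold Sparse at hs
  push Not at hs
  obtain ⟨k, hk, N, hN⟩ := hs
  obtain ⟨b, hb, hb' | hb'⟩ := upper k hk F N hF hN
  · refine ⟨b, ?_, hb'⟩
    have h1 : 0 < freq F b := by
      by_contra h0
      have : freq F b = 0 := by omega
      rw [this] at hb'
      omega
    obtain ⟨A, hA⟩ := card_pos.1 h1
    exact mem_sup_id.2 ⟨A, (mem_filter.1 hA).1, (mem_filter.1 hA).2⟩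
  · have hfree : Free F b := hb'
    have hc := hfree.card
    have hpos : 0 < F.card := hne.card_pos
    have hne' : (F.filter (fun A => b ∉ A)).Nonempty := card_pos.1 (by omega)
    obtain ⟨x, hx, hx'⟩ := ih _ (by omega : (F.filter (fun A => b ∉ A)).card < m)
      (F.filter (fun A => b ∉ A)) rfl hne' (by
        intro A hA B hB
        rw [mem_filter] at hA hB ⊢
        refine ⟨hF A hA.1 B hB.1, ?_⟩
        rw [mem_union]
        tauto) (hfree.sep hsep) (fun hp => hpow (hfree.power hp))
    rw [mem_sup_id] at hx
    obtain ⟨A, hA, hxA⟩ := hx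
    rw [mem_filter] at hA
    have hxb : x ≠ b := fun e => hA.2 (e ▸ hxA)
    refine ⟨x, mem_sup_id.2 ⟨A, hA.1, hxA⟩, ?_⟩
    unfold freq at hx' ⊢
    rw [hfree.freq hxb]
    omega

end

theorem number (k : ℕ) (hk : 3 ≤ k) :
    (∃ C : ℕ, ∀ n : ℕ, 1 ≤ n →
      |2 * (strictNum k n : ℤ) - (n.choose (k - 2) : ℤ)| ≤ C * (n : ℤ) ^ (k - 3)) ∧
    Tendsto (fun n : ℕ => (strictNum k n : ℝ) / (n.choose (k - 2) : ℝ)) atTop (𝓝 (1 / 2)) := by
  have hup : ∀ n : ℕ, ∀ F : Finset (Finset ℕ), UnionClosed F →
      (n.choose (k - 2) + KC k * n ^ (k - 3)) / 2 + 1 ≤ kSets F (range n) k →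
      ∃ x ∈ range n, F.card < 2 * freq F x ∨ FreeElement F x := by
    intro n F hF h
    refine upper k hk F (range n) hF ?_
    rw [card_range]
    omega
  have hbound : ∀ n : ℕ, 1 ≤ n →
      |2 * (strictNum k n : ℤ) - (n.choose (k - 2) : ℤ)| ≤ ((KC k + 3 : ℕ) : ℤ) *
        (n : ℤ) ^ (k - 3) := by
    intro n hn
    have h1 : strictNum k n ≤ (n.choose (k - 2) + KC k * n ^ (k - 3)) / 2 + 1 :=
      Nat.sInf_le (hup n)
    obtain ⟨F, f1, f2, f3⟩ := lower k hk (range n)
    have h4 : kSets F (range n) k < strictNum k n := by
      by_contra hcon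
      push Not at hcon
      have hmem := Nat.sInf_mem (⟨_, hup n⟩ : Set.Nonempty {m : ℕ | ∀ F : Finset (Finset ℕ),
        UnionClosed F → m ≤ kSets F (range n) k →
        ∃ x ∈ range n, F.card < 2 * freq F x ∨ FreeElement F x})
      obtain ⟨x, hx, hab⟩ := hmem F f1 hcon
      have := f3 x hx
      rcases hab with hab | hab
      · omega
      · exact this.2 hab
    rw [card_range] at f2
    have h6 : 1 ≤ n ^ (k - 3) := Nat.one_le_pow _ _ hn
    rw [abs_le]
    have h7 : ((n ^ (k - 3) : ℕ) : ℤ) = (n : ℤ) ^ (k - 3) := by push_cast; rfl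
    rw [← h7]
    have h8 : 2 * strictNum k n ≤ n.choose (k - 2) + (KC k + 3) * n ^ (k - 3) := by
      have : 2 * strictNum k n ≤ n.choose (k - 2) + KC k * n ^ (k - 3) + 2 := by omega
      nlinarith
    have h9 : n.choose (k - 2) ≤ 2 * strictNum k n + (KC k + 3) * n ^ (k - 3) := by
      nlinarith
    constructor
    · have : (n.choose (k - 2) : ℤ) ≤ 2 * (strictNum k n : ℤ) + ((KC k + 3 : ℕ) : ℤ) *
        ((n ^ (k - 3) : ℕ) : ℤ) := by exact_mod_cast h9
      linarith
    · have : 2 * (strictNum k n : ℤ) ≤ (n.choose (k - 2) : ℤ) + ((KC k + 3 : ℕ) : ℤ) *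
        ((n ^ (k - 3) : ℕ) : ℤ) := by exact_mod_cast h8
      linarith
  refine ⟨⟨KC k + 3, hbound⟩, ?_⟩
  obtain ⟨j, rfl⟩ : ∃ j, k = j + 3 := ⟨k - 3, by omega⟩
  exact Pool.Agent.H61.FC.tendsto_half hbound

theorem number3 (n : ℕ) (hn : 4 ≤ n) : strictNum 3 n = n / 2 + 1 := by
  have hup : ∀ F : Finset (Finset ℕ), UnionClosed F → n / 2 + 1 ≤ kSets F (range n) 3 →
      ∃ x ∈ range n, F.card < 2 * freq F x ∨ FreeElement F x := by
    intro F hF h
    refine upper 3 le_rfl F (range n) hF ?_
    rw [card_range]
    simp only [Nat.sub_self, pow_zero, Nat.choose_one_right, show 3 - 2 = 1 from rfl, KC, if_true]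
    omega
  refine le_antisymm (Nat.sInf_le hup) ?_
  have hmem := Nat.sInf_mem (⟨_, hup⟩ : Set.Nonempty {m : ℕ | ∀ F : Finset (Finset ℕ),
    UnionClosed F → m ≤ kSets F (range n) 3 →
    ∃ x ∈ range n, F.card < 2 * freq F x ∨ FreeElement F x})
  obtain ⟨F, f1, f2, f3⟩ := lower3 (range n) (by rw [card_range]; exact hn)
  rw [card_range] at f2
  by_contra hcon
  push Not at hcon
  obtain ⟨x, hx, hab⟩ := hmem F f1 (by
    have h1 : strictNum 3 n ≤ n / 2 := by omega
    exact h1.trans f2)
  have := f3 x hx
  rcases hab with hab | hab
  · omega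
  · exact this.2 hab

/-- There are constants `K k`, `K 3 = 0`, with the following properties.
(1) Let `k ≥ 3`. If a finite union-closed family `F` has more than
`(C(|N|, k-2) + K k * |N| ^ (k-3)) / 2` members among the `k`-subsets of `N` (more than `|N| / 2` for
`k = 3`), then some element of `N` lies in strictly more than half of the members of `F` or is free.
(2) For all `k ≥ 3` and all `N` there is such a family with at least
`(C(|N|, k-2) - 3 * |N| ^ (k-3)) / 2` members among the `k`-subsets of `N` in which every element of `N`
lies in fewer than half of the members and is not free; for `k = 3` and `|N| ≥ 4` there is one with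
`⌊|N| / 2⌋` triples inside `N`.
(3) The threshold `strictNum k n` is `⌊n / 2⌋ + 1` for `k = 3`, `n ≥ 4`, and
`C(n, k-2) / 2 + O(n ^ (k-3))` for all `k ≥ 3`.
(4) Poonen's conjecture is equivalent to its restriction to the families satisfying, for all `k ≥ 3` and
all finite `N`, the bound `(C(|N|, k-2) + K k * |N| ^ (k-3)) / 2` for the number of the `k`-element
members inside `N`. -/
theorem result {α : Type*} [DecidableEq α] [Infinite α] :
    ∃ K : ℕ → ℕ, K 3 = 0 ∧
    (∀ k : ℕ, 3 ≤ k → ∀ (F : Finset (Finset α)) (N : Finset α), UnionClosed F →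
      N.card.choose (k - 2) + K k * N.card ^ (k - 3) < 2 * kSets F N k →
      ∃ x ∈ N, F.card < 2 * freq F x ∨ FreeElement F x) ∧
    (∀ N : Finset α, 4 ≤ N.card → ∃ F : Finset (Finset α), UnionClosed F ∧
      N.card / 2 ≤ kSets F N 3 ∧ ∀ x ∈ N, 2 * freq F x < F.card ∧ ¬ FreeElement F x) ∧
    (∀ k : ℕ, 3 ≤ k → ∀ N : Finset α, ∃ F : Finset (Finset α), UnionClosed F ∧
      N.card.choose (k - 2) ≤ 2 * kSets F N k + 3 * N.card ^ (k - 3) ∧
      ∀ x ∈ N, 2 * freq F x < F.card ∧ ¬ FreeElement F x) ∧
    (∀ n : ℕ, 4 ≤ n → strictNum 3 n = n / 2 + 1) ∧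
    (∀ k : ℕ, 3 ≤ k → (∃ C : ℕ, ∀ n : ℕ, 1 ≤ n →
        |2 * (strictNum k n : ℤ) - (n.choose (k - 2) : ℤ)| ≤ C * (n : ℤ) ^ (k - 3)) ∧
      Tendsto (fun n : ℕ => (strictNum k n : ℝ) / (n.choose (k - 2) : ℝ)) atTop (𝓝 (1 / 2))) ∧
    ((∀ F : Finset (Finset α), Poonen F) ↔ ∀ F : Finset (Finset α), Sparse K F → Poonen F) :=
  ⟨KC, rfl, upper, lower3, lower, number3, number, fun h F _ => h F,
    fun h F => reduction h F.card F rfl⟩

end Pool.Agent.Results.MP_75f39d_co.KSetThresholdStrict
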