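import Pool.Agent.H61.LF16

set_option autoImplicit false
set_option linter.all false

/-!
# Poonen's strict inequality and linear families

Let `F` be a finite union-closed family and `N` a finite set. We say that `K ⊆ F` forces the strict
inequality on `N` if, whatever the other members of `F` are, some element of `N` lies in strictly more
than half of the members of `F`, or `F` is, for some element `b` of `N`, the product of a family and of
the power set of `{b}` (`FreeElement`); free elements can be deleted in Poonen's conjecture.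

* Let `K` be linear (any two members have at most one common point) with members of size at least `3`.
  Then `K` forces the strict inequality if and only if it forces an element of `N` in at least half of
  the members (that is, if and only if it is Frankl-complete, FC). By the linear program for linear FC
  families this is an explicit criterion. It fails for families with members of size `2`, such as one
  pair.
* Consequences: `K` forces the strict inequality if the average over `N` of
  `ω(x) = ∑_{A ∈ K, x ∈ A} (|A| - 1) / (2 ^ (|A| - 1) - 1)` is at least `1`; if `ω < 1` on `N`, then some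
  union-closed `F ⊇ K` has all elements of `N` in fewer than half of its members. A Steiner system
  `S(2,k,n)`, `k ≥ 3`, forces the strict inequality if and only if `n ≥ 2 ^ (k-1)`. A linear family of
  more than `4n/9` triples on `n` points forces it, and this is sharp for all `n`; for `k`-sets the
  threshold is `2 ^ (k-1) n / (k (k-1))` up to a relative error exponentially small in `k`, and almost all
  families of more than `2 ^ (k-1) n / (k (k-1))` sets of size `k` force it.
* General `K`: let `l ≥ 0` be weights of the members (subsets of `N` of size at least `2`) whose sum over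
  the members through any two given points is at most `1`. If
  `∑ l(A) |A| (|A| - 1) / (2 ^ (|A| - 1) - 1) > |N|`, then `K` forces the strict inequality.
* Poonen's conjecture is equivalent to its restriction to the families for which the reverse inequality
  holds for all `N`, `K ⊆ F`, `l`, and which contain no linear FC-family with members of size at least
  `3`.

Proof of the first statement. Let `K` be FC, and let `c ≥ 0` be weights satisfying the local inequalities.
Suppose that no element of `N` is in more than half of the members of `F` and that none is free. All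
inequalities in the local method are then equalities; the summation of the flows gives (`slack`): if
`Y ∈ F` is contained in the support `S` of `c`, `k ∈ Y` and `Y - k ∉ F`, then at most two elements of
`Y - k` are not in the union of the members contained in `Y - k`. So there are members with two or three
elements in `S`. If two such members meet, then we find other weights, with a strict local inequality
(or three triples in a quadruple), and some element of `S` is free or in more than half of the members
(`strict_or_free`); so they are disjoint. By induction, with the same rule and one more configuration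
(disjoint pairs, and the union of these pairs and of one more point), every member contained in `S` is a
union of such members (`Tg.good`). But a point of maximal weight lies in two members of `K` contained in
`S`, which have only this point in common, a contradiction.

Proof of the statement for general `K`. Let `D x` be the number of the edges `(X, X + x)` of the cube
which leave `F` (in the fibres over the traces outside `N`). If `D x = 0`, then `x` is free, or in more
than half of the members. So `D x > 0` for all `x`, and one can use the weights `w x = 1 / D x`, as in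
`MP_9bc572_co.LinearFamilies`.
-/

namespace Pool.Agent.Results.MP_75f39d_co.LinearFamiliesStrict

open Finset

/-- The finite family `F` of finite sets is union-closed. -/
def UnionClosed (F : Finset (Finset ℕ)) : Prop := ∀ A ∈ F, ∀ B ∈ F, A ∪ B ∈ F

/-- The number of members of `F` containing `x`. -/
def freq (F : Finset (Finset ℕ)) (x : ℕ) : ℕ := (F.filter (fun A => x ∈ A)).card

/-- `b` can be added to and removed from all members of `F`. -/
def FreeElement (F : Finset (Finset ℕ)) (b : ℕ) : Prop := ∀ A ∈ F, insert b A ∈ F ∧ A.erase b ∈ F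

/-- The assertion of Poonen's conjecture for the family `F`: if `F` is nonempty, union-closed, separates
the elements of its union and is not the power set of its union, then some element of the union lies in
strictly more than half of the members. -/
def Poonen (F : Finset (Finset ℕ)) : Prop :=
  F.Nonempty → UnionClosed F →
    (∀ x ∈ F.sup id, ∀ y ∈ F.sup id, x ≠ y → ∃ S ∈ F, (x ∈ S ∧ y ∉ S) ∨ (y ∈ S ∧ x ∉ S)) →
    F ≠ (F.sup id).powerset → ∃ x ∈ F.sup id, F.card < 2 * freq F x

/-- Every finite union-closed family containing `K` has an element of `N` which lies in strictly more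
than half of its members or is free. -/
def Forces (N : Finset ℕ) (K : Finset (Finset ℕ)) : Prop :=
  ∀ F : Finset (Finset ℕ), UnionClosed F → K ⊆ F →
    ∃ x ∈ N, F.card < 2 * freq F x ∨ FreeElement F x

/-- Every finite union-closed family containing `K` has an element of `N` in at least half of its
members (`K` is an FC-family). -/
def ForcesHalf (N : Finset ℕ) (K : Finset (Finset ℕ)) : Prop :=
  ∀ F : Finset (Finset ℕ), UnionClosed F → K ⊆ F → ∃ x ∈ N, F.card ≤ 2 * freq F x

/-- The members of `K` are subsets of `N` of size at least `2` with weights `l ≥ 0`, and the sum of the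
weights of the members through any two points of `N` is at most `1`. -/
def Admissible (N : Finset ℕ) (K : Finset (Finset ℕ)) (l : Finset ℕ → ℝ) : Prop :=
  (∀ A ∈ K, A ⊆ N ∧ 2 ≤ A.card ∧ 0 ≤ l A) ∧
    ∀ x ∈ N, ∀ y ∈ N, x ≠ y → ∑ A ∈ K.filter (fun A => x ∈ A ∧ y ∈ A), l A ≤ 1

/-- The weighted sum of the numbers `|A| (|A| - 1) / (2 ^ (|A| - 1) - 1)`. -/
noncomputable def total (K : Finset (Finset ℕ)) (l : Finset ℕ → ℝ) : ℝ :=
  ∑ A ∈ K, l A * ((A.card : ℝ) * (A.card - 1) / (2 ^ (A.card - 1) - 1))

/-- Any two different members have at most one common element. -/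
def Linear (K : Finset (Finset ℕ)) : Prop := ∀ A ∈ K, ∀ B ∈ K, A ≠ B → (A ∩ B).card ≤ 1

/-- `F` contains no finite `K` with admissible weights whose total is greater than `|N|`, and no linear
FC-family with members of size at least `3`. -/
def Sparse (F : Finset (Finset ℕ)) : Prop :=
  (∀ (N : Finset ℕ) (K : Finset (Finset ℕ)) (l : Finset ℕ → ℝ), K ⊆ F → Admissible N K l →
    total K l ≤ N.card) ∧
  ∀ (N : Finset ℕ) (K : Finset (Finset ℕ)), K ⊆ F → (∀ A ∈ K, A ⊆ N ∧ 3 ≤ A.card) → Linear K →
    ¬ ForcesHalf N K

/-- The weight of a point. -/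
noncomputable def omega (K : Finset (Finset ℕ)) (x : ℕ) : ℝ :=
  ∑ A ∈ K.filter (fun A => x ∈ A), ((A.card : ℝ) - 1) / (2 ^ (A.card - 1) - 1)

/-- The linear program of `K` and `N`. -/
def Solution (N : Finset ℕ) (K : Finset (Finset ℕ)) (c : ℕ → ℝ) (t : Finset ℕ → ℕ → ℝ) : Prop :=
  (∀ x, 0 ≤ c x) ∧
    (∀ A ∈ K, ∀ x ∈ A, ∀ U ⊆ A.erase x, (2 ^ U.card - 1) * t A x ≤ ∑ j ∈ U, c j) ∧
    ∀ x ∈ N, c x ≤ ∑ A ∈ K.filter (fun A => x ∈ A), t A x

/-- The least `m` such that every linear family of at least `m` subsets of size `k` of
`{0, …, n-1}` forces the strict inequality on `{0, …, n-1}`. -/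
noncomputable def strictLFC (k n : ℕ) : ℕ :=
  sInf {m : ℕ | ∀ K : Finset (Finset ℕ), (∀ A ∈ K, A ⊆ range n ∧ A.card = k) → Linear K →
    m ≤ K.card → Forces (range n) K}

theorem reduction (h : ∀ F : Finset (Finset ℕ), Sparse F → Poonen F) (m : ℕ) :
    ∀ F : Finset (Finset ℕ), F.card = m → Poonen F := by
  induction m using Nat.strong_induction_on with
  | _ m ih =>
  intro F hm hne hF hsep hpow
  by_cases hs : Sparse F
  · exact h F hs hne hF hsep hpow
  have hex : ∃ (N : Finset ℕ) (b : ℕ), b ∈ N ∧ Pool.Agent.H61.LF.SF F b := by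
    unfold Sparse at hs
    rw [not_and_or] at hs
    push Not at hs
    rcases hs with ⟨N, K, l, hKF, hadm, hN⟩ | ⟨N, K, hKF, hK, hlin, hhalf⟩
    · obtain ⟨b, hb, hb'⟩ := Pool.Agent.H61.LF.strict hF hKF (fun A hA => (hadm.1 A hA).1)
        (fun A hA => (hadm.1 A hA).2.1) (fun A hA => (hadm.1 A hA).2.2) hadm.2 hN
      exact ⟨N, b, hb, hb'⟩
    · obtain ⟨b, hb, hb'⟩ := (Pool.Agent.H61.LF.forces_iff (fun A hA => (hK A hA).1) hlin
        (fun A hA => (hK A hA).2)).2 hhalf F hF hKF
      exact ⟨N, b, hb, hb'⟩
  obtain ⟨N, b, hb, hb' | hb'⟩ := hex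
  · refine ⟨b, ?_, hb'⟩
    have h1 : 0 < freq F b := by
      by_contra h0
      unfold freq at h0
      omega
    obtain ⟨A, hA⟩ := card_pos.1 h1
    exact Pool.Agent.H61.PS.mem_sup_id.2 ⟨A, (mem_filter.1 hA).1, (mem_filter.1 hA).2⟩
  · have hfree : Pool.Agent.H61.PS.Free F b := hb'
    have hc := hfree.card
    have hpos : 0 < F.card := hne.card_pos
    have hne' : (F.filter (fun A => b ∉ A)).Nonempty := card_pos.1 (by omega)
    obtain ⟨x, hx, hx'⟩ := ih _ (by omega : (F.filter (fun A => b ∉ A)).card < m)
      (F.filter (fun A => b ∉ A)) rfl hne' (by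
        intro A hA B hB
        rw [mem_filter] at hA hB ⊢
        refine ⟨hF A hA.1 B hB.1, ?_⟩
        rw [mem_union]
        tauto) (hfree.sep hsep) (fun hp => hpow (hfree.power hp))
    rw [Pool.Agent.H61.PS.mem_sup_id] at hx
    obtain ⟨A, hA, hxA⟩ := hx
    rw [mem_filter] at hA
    have hxb : x ≠ b := fun e => hA.2 (e ▸ hxA)
    refine ⟨x, Pool.Agent.H61.PS.mem_sup_id.2 ⟨A, hA.1, hxA⟩, ?_⟩
    unfold freq at hx' ⊢
    rw [hfree.freq hxb]
    omega

open Classical in
theorem result :
    -- (1) linear families with members of size at least three: forcing the strict inequality is the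
    -- same as forcing an element in at least half of the members, and is decided by a linear program
    (∀ (N : Finset ℕ) (K : Finset (Finset ℕ)), (∀ A ∈ K, A ⊆ N ∧ 3 ≤ A.card) → Linear K →
      (Forces N K ↔ ForcesHalf N K) ∧
      (Forces N K ↔ ∃ c t, Solution N K c t ∧ ∃ b ∈ N, 0 < c b)) ∧
    -- (2) the threshold for the average weight
    (∀ (N : Finset ℕ) (K : Finset (Finset ℕ)), N.Nonempty → (∀ A ∈ K, A ⊆ N ∧ 3 ≤ A.card) →
      Linear K →
      ((N.card : ℝ) ≤ ∑ x ∈ N, omega K x → Forces N K) ∧
      ((∀ x ∈ N, omega K x < 1) → ∃ F : Finset (Finset ℕ), UnionClosed F ∧ K ⊆ F ∧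
        ∀ x ∈ N, 2 * freq F x < F.card)) ∧
    -- (3) Steiner systems
    (∀ (N : Finset ℕ) (K : Finset (Finset ℕ)) (k : ℕ), 3 ≤ k → 2 ≤ N.card →
      (∀ A ∈ K, A ⊆ N ∧ A.card = k) →
      (∀ x ∈ N, ∀ y ∈ N, x ≠ y → (K.filter (fun A => x ∈ A ∧ y ∈ A)).card = 1) →
      (Forces N K ↔ 2 ^ (k - 1) ≤ N.card)) ∧
    -- (4) the numbers `strictLFC(k,n)`
    (∀ n : ℕ, strictLFC 3 n = 4 * n / 9 + 1) ∧
    (∀ k n : ℕ, 3 ≤ k → k ^ 2 * 2 ^ (k - 1) ≤ n →
      (2 ^ (k - 1) - k) * (n - k) < k * (k - 1) * strictLFC k n ∧
      k * (k - 1) * strictLFC k n ≤ (2 ^ (k - 1) - 1) * n + k * (k - 1)) ∧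
    -- (5) almost all families of `m` sets of size `k`
    (∀ k : ℕ, 3 ≤ k → ∃ C : ℕ, ∀ n m : ℕ, 2 ^ (k - 1) * n ≤ k * (k - 1) * m →
      n * ((powersetCard m (powersetCard k (range n))).filter
        (fun B => ¬ Forces (range n) B)).card ≤
        C * (powersetCard m (powersetCard k (range n))).card) ∧
    -- (6) families with weights
    (∀ (N : Finset ℕ) (K : Finset (Finset ℕ)) (l : Finset ℕ → ℝ), Admissible N K l →
      (N.card : ℝ) < total K l → Forces N K) ∧
    -- (7) the reduction of Poonen's conjecture
    ((∀ F : Finset (Finset ℕ), Poonen F) ↔ ∀ F : Finset (Finset ℕ), Sparse F → Poonen F) := by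
  have hnot : ∀ {N : Finset ℕ} {K F : Finset (Finset ℕ)}, UnionClosed F → K ⊆ F →
      (∀ x ∈ N, 2 * freq F x < F.card) → ¬ Forces N K := by
    intro N K F hF hKF h hforce
    obtain ⟨x, hx, hab⟩ := hforce F hF hKF
    have h1 : Pool.Agent.H61.LF.SF F x := hab
    have h2 := h1.abundant
    have h3 := h x hx
    unfold freq at h3
    omega
  have hneg : ∀ {N : Finset ℕ} {K : Finset (Finset ℕ)}, (∀ A ∈ K, A ⊆ N ∧ 2 ≤ A.card) →
      Linear K → (∀ x ∈ N, omega K x < 1) → ∃ F : Finset (Finset ℕ), UnionClosed F ∧ K ⊆ F ∧
        ∀ x ∈ N, 2 * freq F x < F.card := by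
    intro N K hK hlin h
    exact Pool.Agent.H61.LF.not_fc (fun A hA => (hK A hA).1) hlin (fun A hA => (hK A hA).2) h
  have hiff : ∀ {N : Finset ℕ} {K : Finset (Finset ℕ)}, (∀ A ∈ K, A ⊆ N ∧ 3 ≤ A.card) →
      Linear K → (Forces N K ↔ ForcesHalf N K) := by
    intro N K hK hlin
    exact Pool.Agent.H61.LF.forces_iff (fun A hA => (hK A hA).1) hlin (fun A hA => (hK A hA).2)
  refine ⟨?_, ?_, ?_, ?_, ?_, ?_, ?_, ⟨fun h F _ => h F, fun h F => reduction h F.card F rfl⟩⟩
  · intro N K hK hlin
    refine ⟨hiff hK hlin, (hiff hK hlin).trans ?_⟩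
    have hK2 : ∀ A ∈ K, 2 ≤ A.card := fun A hA => by have := (hK A hA).2; omega
    have h := Pool.Agent.H61.LF.linear_iff (fun A hA => (hK A hA).1) hlin hK2
    constructor
    · intro hforce
      obtain ⟨c, h1, ⟨b, hb, h2⟩, h3⟩ := h.1 hforce
      refine ⟨c, fun A x => Pool.Agent.H61.LF.phi c (A.erase x), ⟨h1, ?_, h3⟩, b, hb, h2⟩
      intro A hA x hx U hU
      rw [mul_comm]
      exact Pool.Agent.H61.LF.phi_mul_le hU
    · rintro ⟨c, t, hs, b, hb, hcb⟩
      refine h.2 ⟨c, hs.1, ⟨b, hb, hcb⟩, fun x hx => (hs.2.2 x hx).trans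
        (sum_le_sum fun A hA => ?_)⟩
      have hA' := mem_filter.1 hA
      refine Pool.Agent.H61.LF.le_phi ?_ fun U hU hUA => ?_
      · rw [← card_pos, card_erase_of_mem hA'.2]
        have := hK2 A hA'.1
        omega
      · rw [le_div_iff₀ (Pool.Agent.H61.LF.two_pow_sub_pos hU), mul_comm]
        exact hs.2.1 A hA'.1 x hA'.2 U hUA
  · intro N K hN hK hlin
    have hK2 : ∀ A ∈ K, A ⊆ N ∧ 2 ≤ A.card := fun A hA => ⟨(hK A hA).1, by
      have := (hK A hA).2; omega⟩
    refine ⟨fun h => (hiff hK hlin).2 fun F hF hKF => ?_, fun h => hneg hK2 hlin h⟩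
    exact Pool.Agent.H61.LF.linear_fc hF hKF hN (fun A hA => (hK A hA).1) hlin
      (fun A hA => (hK2 A hA).2) h
  · intro N K k hk hN hK hcod
    have hk2 : 2 ≤ k := by omega
    constructor
    · intro hforce
      by_contra hcon
      push Not at hcon
      obtain ⟨hlin, hom⟩ := Pool.Agent.H61.LF.steiner hk2 hN hK hcod
      have hp := Pool.Agent.H61.LF.pow_pos' hk2
      obtain ⟨F, hF, hKF, hx⟩ := hneg (N := N) (K := K)
        (fun A hA => ⟨(hK A hA).1, by rw [(hK A hA).2]; exact hk2⟩) hlin (fun x hx => by
          have e : omega K x = ((N.card : ℝ) - 1) / (2 ^ (k - 1) - 1) := hom x hx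
          rw [e, div_lt_one hp]
          have : (N.card : ℝ) < 2 ^ (k - 1) := by exact_mod_cast hcon
          linarith)
      exact hnot hF hKF hx hforce
    · intro h F hF hKF
      exact Pool.Agent.H61.LF.steiner_strict hk hN hK hcod h hF hKF
  · intro n
    have e : strictLFC 3 n = sInf (Pool.Agent.H61.LF.SFs 3 n) := by
      unfold strictLFC
      congr 1
      ext m
      constructor
      · intro h F K hF hKF hK hlin hm
        exact h K hK hlin hm F hF hKF
      · intro h K hK hlin hm F hF hKF
        exact h F K hF hKF hK hlin hm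
    rw [e, Pool.Agent.H61.LF.SFs_eq le_rfl]
    exact Pool.Agent.H61.LF.lfc3 n
  · intro k n hk hn
    have e : strictLFC k n = sInf (Pool.Agent.H61.LF.SFs k n) := by
      unfold strictLFC
      congr 1
      ext m
      constructor
      · intro h F K hF hKF hK hlin hm
        exact h K hK hlin hm F hF hKF
      · intro h K hK hlin hm F hF hKF
        exact h F K hF hKF hK hlin hm
    rw [e]
    exact Pool.Agent.H61.LF.sfc_bounds hk hn
  · intro k hk
    obtain ⟨C, hC⟩ := Pool.Agent.H61.LF.almost_strict k hk
    refine ⟨C, fun n m hnm => hC n m hnm _ fun B => ?_⟩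
    constructor
    · intro h
      unfold Forces at h
      push Not at h
      obtain ⟨F, hF, hB, hx⟩ := h
      refine ⟨F, hF, hB, fun x hx' h2 => ?_⟩
      have h3 := hx x hx'
      rcases h2 with h2 | h2
      · exact absurd h2 (not_lt.2 h3.1)
      · exact h3.2 h2
    · rintro ⟨F, hF, hB, hx⟩ h
      obtain ⟨x, hx', hab⟩ := h F hF hB
      exact hx x hx' hab
  · intro N K l hadm hsum F hF hKF
    exact Pool.Agent.H61.LF.strict hF hKF (fun A hA => (hadm.1 A hA).1)
      (fun A hA => (hadm.1 A hA).2.1) (fun A hA => (hadm.1 A hA).2.2) hadm.2 hsum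

end Pool.Agent.Results.MP_75f39d_co.LinearFamiliesStrict
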