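import Pool.Agent.H504.UC.Whole

/-!
# Poonen's conjecture for the families with at least a third of the subsets of the universe

1. Let `F` be a nonempty union-closed family with universe `U`, `|U| = n`, and at least `2 ^ n / 3`
   members. Then some element of `U` lies in strictly more than half of the members, unless `F` is
   the power set of `U` or consists of the subsets of `U` which contain both or none of two fixed
   elements of `U`; and in these two cases there is no such element.
2. Poonen's conjecture holds for all families with at least `2 ^ n / 3` members.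
3. The inside version: if at least `(2 ^ k + 3) / 3` subsets of a `k`-element set `S` are members
   (or more generally: belong to a family `G` such that `A ∪ B ∈ F` for `A ∈ F`, `B ∈ G`), then
   some element of `S` lies in strictly more than half of the members of `F`, or `F` is a product
   with the power set of a nonempty subset `T` of `S` (the elements of `T` may be added to and
   removed from the members of `F` freely). The constant `3` is optimal: it cannot be replaced by
   `2`.
4. Every counterexample `F` to Poonen's conjecture contains a counterexample `F'` with at most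
   `(2 ^ k + 2) / 3` members inside every set of `k` elements, for all `k`.
-/

set_option autoImplicit false

open Finset

namespace Pool.Agent.Results.MP_75f39d_co.OneThirdStrict

universe u

/-- `F` is a counterexample to Poonen's conjecture: a nonempty separating union-closed family which
is not a power set, and in which every element of the universe lies in at most half of the
members. -/
def IsCounterexample {α : Type u} [DecidableEq α] (F : Finset (Finset α)) : Prop :=
  F.Nonempty ∧ (∀ A ∈ F, ∀ B ∈ F, A ∪ B ∈ F) ∧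
    (∀ x ∈ F.sup id, ∀ y ∈ F.sup id, x ≠ y → ∃ A ∈ F, ¬ (x ∈ A ↔ y ∈ A)) ∧
    F ≠ (F.sup id).powerset ∧
    ∀ x ∈ F.sup id, 2 * (F.filter (fun A => x ∈ A)).card ≤ F.card

theorem result :
    -- 1. the families with at least a third of the subsets of their universe
    (∀ (α : Type u) [DecidableEq α] (F : Finset (Finset α)), F.Nonempty →
      (∀ A ∈ F, ∀ B ∈ F, A ∪ B ∈ F) → 2 ^ (F.sup id).card ≤ 3 * F.card →
      ((∃ x ∈ F.sup id, F.card < 2 * (F.filter (fun A => x ∈ A)).card) ↔
        ¬ (F = (F.sup id).powerset ∨ ∃ i ∈ F.sup id, ∃ j ∈ F.sup id, i ≠ j ∧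
          ∀ A, A ∈ F ↔ A ⊆ F.sup id ∧ (i ∈ A ↔ j ∈ A)))) ∧
    -- 2. Poonen's conjecture for these families
    (∀ (α : Type u) [DecidableEq α] (F : Finset (Finset α)), F.Nonempty →
      (∀ A ∈ F, ∀ B ∈ F, A ∪ B ∈ F) →
      (∀ x ∈ F.sup id, ∀ y ∈ F.sup id, x ≠ y → ∃ A ∈ F, ¬ (x ∈ A ↔ y ∈ A)) →
      F ≠ (F.sup id).powerset → 2 ^ (F.sup id).card ≤ 3 * F.card →
      ∃ x ∈ F.sup id, F.card < 2 * (F.filter (fun A => x ∈ A)).card) ∧
    -- 3. the inside version, and its optimality
    (∀ (α : Type u) [DecidableEq α] (F G : Finset (Finset α)) (S : Finset α),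
      (∀ A ∈ F, ∀ B ∈ F, A ∪ B ∈ F) → (∀ A ∈ F, ∀ B ∈ G, A ∪ B ∈ F) →
      2 ^ S.card + 3 ≤ 3 * (G.filter (fun B => B ⊆ S)).card →
      (∃ x ∈ S, F.card < 2 * (F.filter (fun A => x ∈ A)).card) ∨
        ∃ T ⊆ S, T.Nonempty ∧ ∀ A ∈ F, ∀ B, B ⊆ T → A ∪ B ∈ F ∧ A \ B ∈ F) ∧
    (∃ (F : Finset (Finset ℕ)) (S : Finset ℕ),
      (∀ A ∈ F, ∀ B ∈ F, A ∪ B ∈ F) ∧ 2 ^ S.card + 2 ≤ 3 * (F.filter (fun B => B ⊆ S)).card ∧
      ¬ (∃ x ∈ S, F.card < 2 * (F.filter (fun A => x ∈ A)).card) ∧
      ¬ ∃ T ⊆ S, T.Nonempty ∧ ∀ A ∈ F, ∀ B, B ⊆ T → A ∪ B ∈ F ∧ A \ B ∈ F) ∧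
    -- 4. the sparse counterexample
    (∀ (α : Type u) [DecidableEq α] (F : Finset (Finset α)), IsCounterexample F →
      ∃ F' ⊆ F, IsCounterexample F' ∧
        ∀ S : Finset α, 3 * (F'.filter (fun B => B ⊆ S)).card ≤ 2 ^ S.card + 2) := by
  have h1 : ∀ (α : Type u) [DecidableEq α] (F : Finset (Finset α)), F.Nonempty →
      (∀ A ∈ F, ∀ B ∈ F, A ∪ B ∈ F) → 2 ^ (F.sup id).card ≤ 3 * F.card →
      ((∃ x ∈ F.sup id, F.card < 2 * (F.filter (fun A => x ∈ A)).card) ↔
        ¬ (F = (F.sup id).powerset ∨ ∃ i ∈ F.sup id, ∃ j ∈ F.sup id, i ≠ j ∧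
          ∀ A, A ∈ F ↔ A ⊆ F.sup id ∧ (i ∈ A ↔ j ∈ A))) := by
    intro α _ F hne huc hd
    constructor
    · rintro ⟨x, hx, h⟩ hc
      have h2 := Pool.Agent.H504.UC.tight_of_concl (U := F.sup id) (F := F) hc x hx
      omega
    · intro hc
      by_contra hs
      push Not at hs
      exact hc (Pool.Agent.H504.UC.whole_aux _ (F.sup id) F rfl
        ⟨Pool.Agent.H504.UC.base_sup hne huc hs, hd⟩)
  refine ⟨h1, ?_, ?_, ?_, ?_⟩
  · intro α _ F hne huc hsep hpow hd
    refine (h1 α F hne huc hd).2 ?_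
    rintro (h | ⟨i, hi, j, hj, hij, h⟩)
    · exact hpow h
    · obtain ⟨A, hA, hA'⟩ := hsep i hi j hj hij
      exact hA' ((h A).1 hA).2
  · intro α _ F G S hF hFG hS
    exact Pool.Agent.H504.UC.inside hF hFG S hS
  · refine ⟨{∅, {0, 1}}, {0, 1}, by decide, by decide, by decide, ?_⟩
    rintro ⟨T, hT, ⟨t, ht⟩, h⟩
    have h2 := (h ∅ (by decide) {t} (singleton_subset_iff.2 ht)).1
    rw [empty_union, mem_insert, mem_singleton] at h2
    rcases h2 with h2 | h2
    · exact singleton_ne_empty t h2
    · have h3 := congrArg card h2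
      simp at h3
  · intro α _ F hF
    exact Pool.Agent.H504.UC.sparse_aux _ F rfl hF

end Pool.Agent.Results.MP_75f39d_co.OneThirdStrict
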